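import Pool.Agent.W273.AF.C2
import Pool.Agent.W169.AF.Stm2

set_option autoImplicit false

/-!
# Project AF, part C2w: good characters give the normalised local situation (wide version)

Adapted from `Pool.Agent.W273.AF.C2`.
-/

namespace Pool.Agent.W457.AF

open Complex Filter Topology MeasureTheory Set
open Pool.Agent.H24R2.DZ (NN mo yy ra SSq SHar ph)
open Pool.Agent.W169.AF Pool.Agent.W273.AF

/-- the analytic core -/
theorem corew {C1 C2 : ℝ} (hC1 : 0 < C1) (hsq : SqC C1) (hC2 : 0 < C2)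
    (hhar : ∀ (B : ℝ) (K : ℂ → ℂ), 0 ≤ B →
      (∀ z : ℂ, 1 / 2000 ≤ z.re → z.re ≤ 25 → |z.im| ≤ 25 →
        DifferentiableAt ℂ K z ∧ K z ≠ 0 ∧ ‖K z‖ ≤ Real.exp B * ‖K 1‖) →
      ∀ z : ℂ, 1 / 1000 ≤ z.re → z.re ≤ 21 → |z.im| ≤ 21 → ‖logDeriv K z‖ ≤ C2 * B)
    {Lf m Lc H : ℂ → ℂ} (hL : Differentiable ℂ Lf) (hm : Differentiable ℂ m)
    (hLc : Differentiable ℂ Lc) {t0 r a A δ ε D η E0 : ℝ}
    (hsym : ∀ w : ℂ, ‖Lc (1 / 2 + I * t0 - (starRingEnd ℂ) w)‖ = ‖Lc (1 / 2 + I * t0 + w)‖)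
    (hH : ∀ s : ℂ, 0 < s.re → DifferentiableAt ℂ H s ∧ H s ≠ 0 ∧ Lc s = H s * Lf s)
    (hlog : ∀ s : ℂ, 1 / 4 ≤ s.re → s.re ≤ 7 → |s.im - t0| ≤ 7 → ‖logDeriv H s - (A : ℂ)‖ ≤ δ)
    (hr0 : 0 < r) (hr : r ≤ 1 / 5) (ha : 0 < a) (hrA : r * A = a) (hA : 0 < A)
    (hε : 0 < ε) (hε1 : ε ≤ 1 / 20) (hδ1 : δ * r ≤ a / 2500) (hδ0 : 0 ≤ δ)
    (hD : Real.exp D = 1 + 2 * Real.sqrt (16000000 * C1)) (hD0 : 0 ≤ D)
    (hE0 : Real.exp E0 = 1 + 80000 * C1) (hE0a : 20 * E0 ≤ a)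
    (hfar : δ * r + C2 * (ε * a / 2 + D) ≤ η * a)
    (hG1 : (∫ x in (r / 4000)..(30 * r), ∫ y in (-(30 * r))..(30 * r),
      ‖Lf (1 / 2 + x + (t0 + y) * I) * m (1 / 2 + x + (t0 + y) * I) - 1‖ ^ 2) ≤
        1 / (256000000 * C1) * r ^ 2)
    (hG2 : (∫ x in (0 : ℝ)..(30 * r), ∫ y in (-(30 * r))..(30 * r),
      ‖Lf (1 / 2 + x + (t0 + y) * I) * m (1 / 2 + r + t0 * I)‖ ^ 2) ≤
        Real.exp (ε * a) * r ^ 2) :
    (∀ z : ℂ, 1 / 1000 ≤ z.re → ‖z‖ ≤ 20 → Lc (1 / 2 + I * t0 + r * z) ≠ 0 ∧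
      ‖logDeriv (fun z : ℂ => Lc (1 / 2 + I * t0 + r * z)) z - a‖ ≤ η * a) ∧
    (∀ z : ℂ, |z.re| ≤ 1 / 1000 → ‖z‖ ≤ 20 → ‖Lc (1 / 2 + I * t0 + r * z)‖ ≤
      ‖Lc (1 / 2 + I * t0 + r * 1)‖ * Real.exp (-(9 / 10 * a))) ∧
    1 / 2 ≤ ‖Lf (1 / 2 + I * t0 + r * 1) * m (1 / 2 + r + t0 * I)‖ := by
  have hsq0 := Real.sqrt_nonneg (16000000 * C1)
  set M := m (1 / 2 + r + t0 * I) with hMdef
  set Kf : ℂ → ℂ := fun z => Lf (1 / 2 + I * t0 + r * z) with hKf
  have hAA : ∀ z : ℂ, 1 / 2000 ≤ z.re → z.re ≤ 25 → |z.im| ≤ 25 →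
      ‖Kf z * m (1 / 2 + I * t0 + r * z) - 1‖ ≤ 1 / 2 := by
    intro z hz1 hz2 hz3
    rw [abs_le] at hz3
    simp only [hKf]
    rw [pt_eq]
    exact partA hL hm hC1 hsq hr0 hG1 (r * z.re) (r * z.im)
      (by linarith [mul_le_mul_of_nonneg_left hz1 hr0.le])
      (by linarith [mul_le_mul_of_nonneg_left hz2 hr0.le])
      (by linarith [mul_le_mul_of_nonneg_left hz3.1 hr0.le])
      (by linarith [mul_le_mul_of_nonneg_left hz3.2 hr0.le])
  have hKne : ∀ z : ℂ, 1 / 2000 ≤ z.re → z.re ≤ 25 → |z.im| ≤ 25 → Kf z ≠ 0 := by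
    intro z hz1 hz2 hz3 h0
    have := hAA z hz1 hz2 hz3
    rw [h0, zero_mul, zero_sub, norm_neg, norm_one] at this
    norm_num at this
  have hone : 1 / 2 ≤ ‖Kf 1 * M‖ := by
    have h3 := hAA 1 (by norm_num) (by norm_num) (by norm_num)
    have h4 : (1 / 2 + I * t0 + r * 1 : ℂ) = 1 / 2 + r + t0 * I := by ring
    rw [h4, ← hMdef] at h3
    have h5 : ‖(1 : ℂ)‖ ≤ ‖Kf 1 * M‖ + ‖Kf 1 * M - 1‖ := by
      have := norm_sub_le (Kf 1 * M) (Kf 1 * M - 1)
      simpa using this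
    rw [norm_one] at h5
    linarith
  have hM0 : M ≠ 0 := by
    intro h0
    rw [h0, mul_zero, norm_zero] at hone
    norm_num at hone
  have hMn : 0 < ‖M‖ := norm_pos_iff.2 hM0
  have hBd : ∀ z : ℂ, 1 / 2000 ≤ z.re → z.re ≤ 25 → |z.im| ≤ 25 →
      ‖Kf z‖ ≤ Real.exp (ε * a / 2 + D) * ‖Kf 1‖ := by
    intro z hz1 hz2 hz3
    rw [abs_le] at hz3
    have h3 := partB hL hC1 hsq hr0 M (Real.exp (ε * a)) hG2 (r * z.re) (r * z.im)
      (by linarith [mul_le_mul_of_nonneg_left hz1 hr0.le])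
      (by linarith [mul_le_mul_of_nonneg_left hz2 hr0.le])
      (by linarith [mul_le_mul_of_nonneg_left hz3.1 hr0.le])
      (by linarith [mul_le_mul_of_nonneg_left hz3.2 hr0.le])
    rw [← pt_eq] at h3
    have h4 : 16000000 * C1 * Real.exp (ε * a) =
        (Real.sqrt (16000000 * C1) * Real.exp (ε * a / 2)) ^ 2 := by
      rw [mul_pow, Real.sq_sqrt (by positivity), ← Real.exp_nat_mul]
      congr 2
      push_cast
      ring
    rw [h4] at h3
    have h5 := (pow_le_pow_iff_left₀ (norm_nonneg _) (by positivity) two_ne_zero).1 h3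
    change ‖Kf z * M‖ ≤ _ at h5
    rw [norm_mul] at h5
    have h6 : ‖Kf z‖ * ‖M‖ ≤ (Real.exp (ε * a / 2 + D) * ‖Kf 1‖) * ‖M‖ := by
      rw [norm_mul] at hone
      calc ‖Kf z‖ * ‖M‖ ≤ Real.sqrt (16000000 * C1) * Real.exp (ε * a / 2) := h5
        _ ≤ (Real.exp D / 2) * Real.exp (ε * a / 2) := by
            gcongr
            linarith
        _ = Real.exp (ε * a / 2 + D) * (1 / 2) := by rw [Real.exp_add]; ring
        _ ≤ Real.exp (ε * a / 2 + D) * (‖Kf 1‖ * ‖M‖) := by gcongr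
        _ = _ := by ring
    exact le_of_mul_le_mul_right h6 hMn
  have hafd : ∀ z : ℂ, HasDerivAt (fun z : ℂ => 1 / 2 + I * t0 + r * z) (r : ℂ) z := by
    intro z
    simpa using ((hasDerivAt_id z).const_mul (r : ℂ)).const_add (1 / 2 + I * (t0 : ℂ))
  have hKd : ∀ z : ℂ, DifferentiableAt ℂ Kf z := by
    intro z
    exact DifferentiableAt.comp (g := Lf) (f := fun z : ℂ => 1 / 2 + I * t0 + r * z) z (hL _)
      (hafd z).differentiableAt
  have hre : ∀ z : ℂ, (1 / 2 + I * t0 + r * z : ℂ).re = 1 / 2 + r * z.re := by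
    intro z; simp
  have himm : ∀ z : ℂ, (1 / 2 + I * t0 + r * z : ℂ).im = t0 + r * z.im := by
    intro z; simp
  have hFK : ∀ z : ℂ, 0 < z.re → Lc (1 / 2 + I * t0 + r * z) = H (1 / 2 + I * t0 + r * z) * Kf z := by
    intro z hz
    refine (hH _ ?_).2.2
    rw [hre]
    positivity
  refine ⟨?_, ?_, hone⟩
  · intro z hz1 hz2
    have hzre := (Complex.abs_re_le_norm z).trans hz2
    have hzim := (Complex.abs_im_le_norm z).trans hz2
    have hzre' := (abs_le.1 hzre).2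
    have h20 : r * 20 ≤ 4 := by linarith
    have hres : 1 / 4 ≤ (1 / 2 + I * t0 + r * z : ℂ).re := by
      rw [hre]
      have : 0 ≤ r * z.re := mul_nonneg hr0.le (by linarith)
      linarith
    have hres2 : (1 / 2 + I * t0 + r * z : ℂ).re ≤ 7 := by
      rw [hre]
      have : r * z.re ≤ r * 20 := mul_le_mul_of_nonneg_left hzre' hr0.le
      linarith
    have hims : |(1 / 2 + I * t0 + r * z : ℂ).im - t0| ≤ 7 := by
      rw [himm, add_sub_cancel_left, abs_mul, abs_of_pos hr0]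
      have : r * |z.im| ≤ r * 20 := mul_le_mul_of_nonneg_left hzim hr0.le
      linarith
    obtain ⟨hd, hne, -⟩ := hH (1 / 2 + I * t0 + r * z) (by linarith)
    have hld := hlog _ hres hres2 hims
    have hK0 : Kf z ≠ 0 := hKne z (by linarith) (by linarith) (by linarith)
    have hF0 : Lc (1 / 2 + I * t0 + r * z) = H (1 / 2 + I * t0 + r * z) * Kf z :=
      hFK z (by linarith)
    refine ⟨by rw [hF0]; exact mul_ne_zero hne hK0, ?_⟩
    have hev : (fun z : ℂ => Lc (1 / 2 + I * t0 + r * z)) =ᶠ[𝓝 z]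
        fun z => H (1 / 2 + I * t0 + r * z) * Kf z := by
      have hopen : IsOpen {w : ℂ | 0 < w.re} :=
        isOpen_lt continuous_const Complex.continuous_re
      filter_upwards [hopen.mem_nhds (show 0 < z.re by linarith)] with w hw
      exact hFK w hw
    have hlg : logDeriv (fun z : ℂ => Lc (1 / 2 + I * t0 + r * z)) z =
        logDeriv (fun z : ℂ => H (1 / 2 + I * t0 + r * z) * Kf z) z := by
      rw [logDeriv_apply, logDeriv_apply, hev.deriv_eq, hF0]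
    have haff := hafd z
    have hcd : DifferentiableAt ℂ (fun z : ℂ => H (1 / 2 + I * t0 + r * z)) z :=
      DifferentiableAt.comp (g := H) (f := fun z : ℂ => 1 / 2 + I * t0 + r * z) z hd
        haff.differentiableAt
    rw [hlg, logDeriv_mul z hne hK0 hcd (hKd z)]
    have hcomp : logDeriv (fun z : ℂ => H (1 / 2 + I * t0 + r * z)) z =
        logDeriv H (1 / 2 + I * t0 + r * z) * r := by
      have := logDeriv_comp (f := H) (g := fun z : ℂ => 1 / 2 + I * t0 + r * z) (x := z) hd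
        haff.differentiableAt
      rw [haff.deriv] at this
      exact this
    rw [hcomp]
    have hkb := hhar (ε * a / 2 + D) Kf (by positivity) (fun w hw1 hw2 hw3 =>
      ⟨hKd w, hKne w hw1 hw2 hw3, hBd w hw1 hw2 hw3⟩) z hz1 (by linarith) (by linarith)
    have e1 : logDeriv H (1 / 2 + I * t0 + r * z) * r + logDeriv Kf z - a =
        (logDeriv H (1 / 2 + I * t0 + r * z) - (A : ℂ)) * r + logDeriv Kf z := by
      rw [← hrA]
      push_cast
      ring
    rw [e1]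
    have e2 : ‖(logDeriv H (1 / 2 + I * t0 + r * z) - (A : ℂ)) * r‖ ≤ δ * r := by
      rw [norm_mul, Complex.norm_real, Real.norm_of_nonneg hr0.le]
      gcongr
    calc _ ≤ ‖(logDeriv H (1 / 2 + I * t0 + r * z) - (A : ℂ)) * r‖ + ‖logDeriv Kf z‖ :=
          norm_add_le _ _
      _ ≤ δ * r + C2 * (ε * a / 2 + D) := by gcongr
      _ ≤ η * a := hfar
  · intro z hz1 hz2
    have himz := (Complex.abs_im_le_norm z).trans hz2
    rw [abs_le] at hz1 himz
    set N1 := ‖H (1 / 2 + I * t0 + r)‖ with hN1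
    have hBB : ∀ x y : ℝ, 0 ≤ x → x ≤ r / 50 → -(21 * r) ≤ y → y ≤ 21 * r →
        ‖H (1 / 2 + I * t0 + (x + y * I))‖ ^ 2 ≤
          Real.exp (2 * (-(49 / 50 * a) + 22 * (a / 2500))) * N1 ^ 2 := by
      intro x y hx1 hx2 hy1 hy2
      have hg := grow (H := H) (A := A) (δ := δ) (s0 := 1 / 2 + I * t0 + r)
        (s1 := 1 / 2 + I * t0 + (x + y * I)) (by
          intro t ht0 ht1
          have e1 : (1 / 2 + I * t0 + r + t * (1 / 2 + I * t0 + (x + y * I) -
              (1 / 2 + I * t0 + r)) : ℂ) =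
              ((1 / 2 + (1 - t) * r + t * x : ℝ) : ℂ) + ((t0 + t * y : ℝ) : ℂ) * I := by
            push_cast
            ring
          rw [e1]
          have er : (((1 / 2 + (1 - t) * r + t * x : ℝ) : ℂ) + ((t0 + t * y : ℝ) : ℂ) * I).re =
              1 / 2 + (1 - t) * r + t * x := by
            simp only [add_re, ofReal_re, mul_re, I_re, mul_zero, ofReal_im, I_im, mul_one, sub_self,
              add_zero]
          have ei : (((1 / 2 + (1 - t) * r + t * x : ℝ) : ℂ) + ((t0 + t * y : ℝ) : ℂ) * I).im =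
              t0 + t * y := by
            simp only [add_im, ofReal_im, mul_im, I_re, mul_zero, ofReal_re, I_im, mul_one,
              add_zero, zero_add]
          have k1 : 0 ≤ (1 - t) * r := mul_nonneg (by linarith) hr0.le
          have k2 : 0 ≤ t * x := mul_nonneg ht0 hx1
          have k3 : (1 - t) * r ≤ 1 * r := mul_le_mul_of_nonneg_right (by linarith) hr0.le
          have k4 : t * x ≤ 1 * x := mul_le_mul_of_nonneg_right ht1 hx1
          have k5 : |t * y| ≤ 1 * (21 * r) := by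
            rw [abs_mul, abs_of_nonneg ht0]
            exact mul_le_mul ht1 (abs_le.2 ⟨hy1, hy2⟩) (abs_nonneg _) zero_le_one
          obtain ⟨p1, p2, -⟩ := hH (((1 / 2 + (1 - t) * r + t * x : ℝ) : ℂ) +
            ((t0 + t * y : ℝ) : ℂ) * I) (by rw [er]; linarith)
          refine ⟨p1, p2, hlog _ (by rw [er]; linarith) (by rw [er]; linarith) ?_⟩
          rw [ei, add_sub_cancel_left]
          linarith)
      have e2 : (1 / 2 + I * t0 + (x + y * I) - (1 / 2 + I * t0 + r) : ℂ) =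
          ((x - r : ℝ) : ℂ) + (y : ℂ) * I := by
        push_cast
        ring
      have e3 : (((x - r : ℝ) : ℂ) + (y : ℂ) * I).re = x - r := by simp
      have e4 : (((x - r : ℝ) : ℂ) + (y : ℂ) * I).im = y := by simp
      have e5 : ‖((x - r : ℝ) : ℂ) + (y : ℂ) * I‖ ≤ 22 * r := by
        refine (Complex.norm_le_abs_re_add_abs_im _).trans ?_
        rw [e3, e4, abs_of_nonpos (by linarith)]
        have : |y| ≤ 21 * r := abs_le.2 ⟨hy1, hy2⟩
        linarith
      rw [e2, e3] at hg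
      have h5 : ‖H (1 / 2 + I * t0 + (x + y * I))‖ ≤
          Real.exp (-(49 / 50 * a) + 22 * (a / 2500)) * N1 := by
        refine hg.trans ?_
        rw [mul_comm, hN1]
        refine mul_le_mul_of_nonneg_right (Real.exp_le_exp.2 ?_) (norm_nonneg _)
        have q1 : A * (x - r) ≤ A * (-(49 / 50 * r)) :=
          mul_le_mul_of_nonneg_left (by linarith) hA.le
        have q2 : δ * ‖((x - r : ℝ) : ℂ) + (y : ℂ) * I‖ ≤ δ * (22 * r) :=
          mul_le_mul_of_nonneg_left e5 hδ0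
        have q3 : A * (-(49 / 50 * r)) = -(49 / 50 * a) := by rw [← hrA]; ring
        linarith
      calc ‖H (1 / 2 + I * t0 + (x + y * I))‖ ^ 2 ≤
            (Real.exp (-(49 / 50 * a) + 22 * (a / 2500)) * N1) ^ 2 := by gcongr
        _ = _ := by
            rw [mul_pow, ← Real.exp_nat_mul]
            push_cast
            rfl
    have hz : (1 / 2 + I * t0 + r * z : ℂ) =
        1 / 2 + I * t0 + (((r * z.re : ℝ) : ℂ) + ((r * z.im : ℝ) : ℂ) * I) := by
      apply Complex.ext <;> simp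
    have hc := partC hL hLc hsym (fun s hs => (hH s hs).2.2) hC1 hsq hr0 M hM0 (Real.exp (ε * a)) hG2
      _ hBB (r * z.re) (r * z.im)
      (by linarith [mul_le_mul_of_nonneg_left hz1.1 hr0.le])
      (by linarith [mul_le_mul_of_nonneg_left hz1.2 hr0.le])
      (by linarith [mul_le_mul_of_nonneg_left himz.1 hr0.le])
      (by linarith [mul_le_mul_of_nonneg_left himz.2 hr0.le])
    rw [← hz] at hc
    -- the value at 1
    have hF1 : ‖Lc (1 / 2 + I * t0 + r * 1)‖ = N1 * ‖Kf 1‖ := by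
      rw [hFK 1 (by norm_num), norm_mul, mul_one]
    have hN : N1 ≤ 2 * ‖Lc (1 / 2 + I * t0 + r * 1)‖ * ‖M‖ := by
      rw [hF1]
      rw [norm_mul] at hone
      have : N1 * (1 / 2) ≤ N1 * (‖Kf 1‖ * ‖M‖) :=
        mul_le_mul_of_nonneg_left hone (norm_nonneg _)
      linarith
    set F1 := ‖Lc (1 / 2 + I * t0 + r * 1)‖ with hF1d
    have hN2 : N1 ^ 2 ≤ 4 * F1 ^ 2 * ‖M‖ ^ 2 := by
      calc N1 ^ 2 ≤ (2 * F1 * ‖M‖) ^ 2 := by
            have : 0 ≤ N1 := norm_nonneg _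
            gcongr
        _ = _ := by ring
    have hfin : ‖Lc (1 / 2 + I * t0 + r * z)‖ ^ 2 ≤ (F1 * Real.exp (-(9 / 10 * a))) ^ 2 := by
      calc ‖Lc (1 / 2 + I * t0 + r * z)‖ ^ 2 ≤ _ := hc
        _ ≤ 20000 * C1 * (Real.exp (2 * (-(49 / 50 * a) + 22 * (a / 2500))) *
              (4 * F1 ^ 2 * ‖M‖ ^ 2)) * Real.exp (ε * a) / ‖M‖ ^ 2 := by gcongr
        _ = (80000 * C1) * (Real.exp (2 * (-(49 / 50 * a) + 22 * (a / 2500))) *
              Real.exp (ε * a)) * F1 ^ 2 := by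
            field_simp
            ring
        _ ≤ Real.exp E0 * (Real.exp (2 * (-(49 / 50 * a) + 22 * (a / 2500))) *
              Real.exp (ε * a)) * F1 ^ 2 := by
            gcongr
            rw [hE0]
            linarith
        _ = Real.exp (E0 + (2 * (-(49 / 50 * a) + 22 * (a / 2500)) + ε * a)) * F1 ^ 2 := by
            rw [← Real.exp_add, ← Real.exp_add]
        _ ≤ Real.exp (2 * (-(9 / 10 * a))) * F1 ^ 2 := by
            have h4 : ε * a ≤ 1 / 20 * a := by gcongr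
            have h5 : E0 + (2 * (-(49 / 50 * a) + 22 * (a / 2500)) + ε * a) ≤
                2 * (-(9 / 10 * a)) := by
              linarith
            gcongr
        _ = _ := by
            rw [mul_pow, ← Real.exp_nat_mul]
            push_cast
            ring
    exact (pow_le_pow_iff_left₀ (norm_nonneg _) (by positivity) two_ne_zero).1 hfin

theorem c2w (hHG : S_HGw) (hSYM : S_SYM) (h1 : SSq) (h2 : SHar) : S_C2w := by
  obtain ⟨C1, hC1, hsq⟩ := h1
  obtain ⟨C2, hC2, hhar⟩ := h2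
  intro η hη
  set ε := min (1 / 20) (η / (2 * C2)) with hε
  have hε0 : 0 < ε := lt_min (by norm_num) (by positivity)
  have hε1 : ε ≤ 1 / 20 := min_le_left _ _
  have hε2 : C2 * ε ≤ η / 2 := by
    have h3 : ε ≤ η / (2 * C2) := min_le_right _ _
    calc C2 * ε ≤ C2 * (η / (2 * C2)) := by gcongr
      _ = η / 2 := by field_simp
  set η' := min (1 / 5000) (η / 8) with hη'
  have hη'0 : 0 < η' := lt_min (by norm_num) (by positivity)
  have hη'1 : η' ≤ 1 / 5000 := min_le_left _ _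
  have hη'2 : η' ≤ η / 8 := min_le_right _ _
  obtain ⟨c, Q1, hc0, hc1, hQ1, hHG'⟩ := hHG η' hη'0
  refine ⟨1 / (256000000 * C1), ε, c, by positivity, hε0, hc0, hc1, ?_⟩
  intro θ hθ hθ'
  set D := Real.log (1 + 2 * Real.sqrt (16000000 * C1)) with hD
  have hsq0 := Real.sqrt_nonneg (16000000 * C1)
  have hD0 : 0 ≤ D := Real.log_nonneg (by linarith)
  have hDe : Real.exp D = 1 + 2 * Real.sqrt (16000000 * C1) := Real.exp_log (by linarith)
  set E0 := Real.log (1 + 80000 * C1) with hE0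
  have hE0e : Real.exp E0 = 1 + 80000 * C1 := Real.exp_log (by positivity)
  refine ⟨max 1 (max (4 * C2 * D / η) (20 * E0)), max Q1 16, ?_⟩
  intro Q q a t0 hQ ha haL ht0 hq1 hq2 χ hχ hGd
  have ha1 : 1 ≤ a := (le_max_left _ _).trans ha
  have ha2 : 4 * C2 * D / η ≤ a := ((le_max_left _ _).trans (le_max_right _ _)).trans ha
  have ha3 : 20 * E0 ≤ a := ((le_max_right _ _).trans (le_max_right _ _)).trans ha
  have hQ1' : Q1 ≤ Q := (le_max_left _ _).trans hQ
  have hQ16 : (16 : ℝ) ≤ Q := (le_max_right _ _).trans hQ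
  have hQ0 : (0 : ℝ) < Q := by linarith
  have hQhalf : (4 : ℝ) ≤ (Q : ℝ) ^ (1 / 2 : ℝ) := by
    rw [← Real.sqrt_eq_rpow]
    apply Real.le_sqrt_of_sq_le
    linarith
  have hq2' : 2 ≤ q := by
    have h3 : (Q : ℝ) ^ (1 / 2 : ℝ) ≤ (Q : ℝ) ^ (1 - c) :=
      Real.rpow_le_rpow_of_exponent_le (by linarith) (by linarith)
    have h4 : (4 : ℝ) ≤ q := by linarith
    have h5 : 4 ≤ q := by exact_mod_cast h4
    omega
  obtain ⟨H, hH, hlog⟩ := hHG' Q q hQ1' hq1 hq2 χ hχ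
  obtain ⟨hLc, hL, hω⟩ := hSYM q hq2' χ hχ
  obtain ⟨ω0, hω0, hsy0⟩ := hω t0
  have hω00 : ω0 ≠ 0 := by
    intro h0
    rw [h0, norm_zero] at hω0
    norm_num at hω0
  have hsym : ∀ w : ℂ, ‖LC q χ (1 / 2 + I * t0 - (starRingEnd ℂ) w)‖ =
      ‖LC q χ (1 / 2 + I * t0 + w)‖ := by
    intro w
    have h3 := congrArg norm (hsy0 w)
    rw [Complex.norm_conj, norm_mul, norm_mul, hω0, one_mul, one_mul] at h3
    exact h3
  set r := ra Q a with hrdef
  have hr_eq : r = a / (Real.log Q / 2) := rfl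
  have hL0 : 0 < Real.log Q := by linarith
  have hr0 : 0 < r := by rw [hr_eq]; positivity
  have hr : r ≤ 1 / 5 := by rw [hr_eq, div_le_iff₀ (by positivity)]; linarith
  have hrA : r * (Real.log Q / 2) = a := by
    rw [hr_eq]
    field_simp
  obtain ⟨hG1, hG2⟩ := hGd
  rw [← hrdef] at hG1 hG2
  obtain ⟨cf, cn, clow⟩ := corew (C1 := C1) (C2 := C2) hC1 hsq hC2 hhar hL (MX_diff θ Q q χ) hLc
    (t0 := t0) (r := r) (a := a) (A := Real.log Q / 2) (δ := η' * Real.log Q) (ε := ε) (D := D)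
    (η := η) (E0 := E0) hsym hH (by
      intro s hs1 hs2 hs3
      refine hlog s hs1 hs2 ?_
      have h3 : |s.im| ≤ |s.im - t0| + |t0| := by
        have := abs_add_le (s.im - t0) t0
        rwa [sub_add_cancel] at this
      linarith) hr0 hr (by linarith) hrA (by linarith) hε0 hε1 (by
      have h3 : η' * Real.log Q * r = η' * (2 * a) := by rw [← hrA]; ring
      rw [h3]
      have := mul_le_mul_of_nonneg_right hη'1 (show 0 ≤ 2 * a by linarith)
      linarith) (by positivity) hDe hD0 hE0e ha3 (by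
      have h3 : η' * Real.log Q * r = η' * (2 * a) := by rw [← hrA]; ring
      rw [h3]
      have h4 := mul_le_mul_of_nonneg_right hη'2 (show 0 ≤ 2 * a by linarith)
      have h5 := mul_le_mul_of_nonneg_right hε2 (show 0 ≤ a / 2 by linarith)
      rw [div_le_iff₀ hη] at ha2
      have h6 : 0 ≤ η * a := mul_nonneg hη.le (by linarith)
      linarith) hG1 hG2
  refine ⟨?_, ?_⟩
  · intro ω hω1 hsy
    have hωne : ω ≠ 0 := by
      intro h0
      rw [h0, norm_zero] at hω1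
      norm_num at hω1
    refine ⟨?_, ?_, ?_, ?_⟩
    · have h3 : Differentiable ℂ (fun z : ℂ => 1 / 2 + I * t0 + ((r : ℝ) : ℂ) * z) := by fun_prop
      exact (hLc.comp h3).const_mul ω
    · intro z
      have h3 := hsy (r * z)
      have h4 : (1 / 2 + I * t0 - (starRingEnd ℂ) ((r : ℂ) * z) : ℂ) =
          1 / 2 + I * t0 + r * (-(starRingEnd ℂ) z) := by
        rw [map_mul, conj_ofReal]
        ring
      rw [h4] at h3
      exact h3
    · intro z hz1 hz2
      obtain ⟨k1, k2⟩ := cf z hz1 hz2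
      refine ⟨mul_ne_zero hωne k1, ?_⟩
      rw [show (fun z : ℂ => ω * LC q χ (1 / 2 + I * t0 + ((ra Q a : ℝ) : ℂ) * z)) =
        fun z : ℂ => ω * (fun z : ℂ => LC q χ (1 / 2 + I * t0 + ((r : ℝ) : ℂ) * z)) z from rfl,
        logDeriv_const_mul _ _ hωne]
      exact k2
    · intro z hz1 hz2
      have k := cn z hz1 hz2
      show ‖ω * _‖ ≤ ‖ω * _‖ * _
      rw [norm_mul, norm_mul, hω1, one_mul, one_mul]
      exact k
  · rw [mul_one, norm_mul] at clow
    have h3 : ‖MX θ Q q χ (1 / 2 + r + t0 * I)‖ ≤ (yy θ Q : ℝ) := MX_le χ (by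
      simp
      positivity)
    have h4 : (yy θ Q : ℝ) ≤ 2 * (Q : ℝ) ^ (1 / 2 : ℝ) / 4 * (Q : ℝ) ^ (1 / 2 : ℝ) := by
      have h5 : (yy θ Q : ℝ) ≤ (Q : ℝ) ^ θ + 1 := by
        unfold yy
        exact (Nat.ceil_lt_add_one (by positivity)).le
      have h6 : (Q : ℝ) ^ θ ≤ (Q : ℝ) ^ (1 / 2 : ℝ) :=
        Real.rpow_le_rpow_of_exponent_le (by linarith) (by linarith)
      nlinarith
    have h7 : (Q : ℝ) ^ (1 / 2 : ℝ) * (Q : ℝ) ^ (1 / 2 : ℝ) = Q := by
      rw [← Real.rpow_add hQ0]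
      norm_num
    have h8 : (yy θ Q : ℝ) ≤ Q / 2 := by
      have : 2 * (Q : ℝ) ^ (1 / 2 : ℝ) / 4 * (Q : ℝ) ^ (1 / 2 : ℝ) =
        ((Q : ℝ) ^ (1 / 2 : ℝ) * (Q : ℝ) ^ (1 / 2 : ℝ)) / 2 := by ring
      rw [this, h7] at h4
      exact h4
    have h9 : 1 / 2 ≤ ‖LF q χ (1 / 2 + I * t0 + r)‖ * (Q / 2) :=
      clow.trans (mul_le_mul_of_nonneg_left (h3.trans h8) (norm_nonneg _))
    show (Q : ℝ)⁻¹ ≤ ‖LF q χ (1 / 2 + I * t0 + ((r : ℝ) : ℂ))‖
    rw [inv_le_iff_one_le_mul₀ hQ0]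
    linarith

end Pool.Agent.W457.AF
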